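import Pool.Agent.Helper223_Chow.ChowGIT

/-!
Chow (semi)stability of a cubic surface in its embedding by `O(k)`, at any single level
`k ≥ 1`, implies GIT (semi)stability.
-/

namespace Pool.Agent.Results.MP_a25055_ag.ChowImpliesGIT

open Pool.Agent.Helper223

theorem result {K : Type*} [Field K] (f : MvPolynomial (Fin 4) K) (hf : f.IsHomogeneous 3)
    (hf0 : f ≠ 0) (k : ℕ) (hk : 1 ≤ k) :
    (ChowSemistableAt f k → GITSemistable f) ∧ (ChowStableAt f k → GITStable f) :=
  ⟨git_semistable_of_chow hf hf0 hk, git_stable_of_chow hf hf0 hk⟩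

end Pool.Agent.Results.MP_a25055_ag.ChowImpliesGIT
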