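import Pool.Agent.Helper223_Chow.ChowGIT
import Pool.Agent.Helper223_Chow.Strict

/-!
For cubic surfaces that are not GIT stable, GIT semistability is equivalent to Chow
semistability at every level `k ≥ 1`, and these surfaces are Chow stable at no level.
-/

namespace Pool.Agent.Results.MP_a25055_ag.NonStableLocus

open Pool.Agent.Helper223

theorem result {K : Type*} [Field K] [IsAlgClosed K] (f : MvPolynomial (Fin 4) K)
    (hf : f.IsHomogeneous 3) (hf0 : f ≠ 0) (hns : ¬ GITStable f) (k : ℕ) (hk : 1 ≤ k) :
    (ChowSemistableAt f k ↔ GITSemistable f) ∧ ¬ ChowStableAt f k :=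
  ⟨⟨git_semistable_of_chow hf hf0 hk, fun hs => semistable_of_strictly hf hf0 hs hns hk⟩,
    fun h => hns (git_stable_of_chow hf hf0 hk h)⟩

end Pool.Agent.Results.MP_a25055_ag.NonStableLocus
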