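import Pool.Agent.Helper223_Chow.NearGIT

/-!
For cubic surfaces congruent to the `3A₂` surface `x₃³ = x₀x₁x₂` modulo an ideal of a
coefficient ring which contains no power of three, Chow stability at any level `k ≥ 1` is
equivalent to GIT stability.
-/

namespace Pool.Agent.Results.MP_a25055_ag.StableNear3A2

open Pool.Agent.Helper223 MvPolynomial

theorem result {K : Type*} [Field K] [IsAlgClosed K] (f : MvPolynomial (Fin 4) K)
    (hf : f.IsHomogeneous 3) (A : Subring K) (I : Ideal A) (h3 : ∀ n : ℕ, (3 : A) ^ n ∉ I)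
    (h : ∀ m : Fin 4 →₀ ℕ, ∃ a ∈ I, (a : K) = coeff m (f - (X 3 ^ 3 - X 0 * X 1 * X 2)))
    (k : ℕ) (hk : 1 ≤ k) : ChowStableAt f k ↔ GITStable f :=
  stable_iff_of_ideal f hf A I h3 h hk

end Pool.Agent.Results.MP_a25055_ag.StableNear3A2
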